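import Mathlib

set_option autoImplicit false

namespace Pool.Agent.Results.MP_41e757_co.SkewHamming

section algebra

/-- The group algebra of the elementary abelian group of rank `N` over `R`. -/
abbrev Alg (N : ℕ) (R : Type*) [CommRing R] : Type _ := AddMonoidAlgebra R (Fin N → ZMod 2)

variable {N : ℕ} {R : Type*} [CommRing R]

lemma two_eq_zero' [CharP R 2] : (2 : Alg N R) = 0 := by
  have h : (2 : R) = 0 := CharTwo.two_eq_zero
  exact (map_ofNat (algebraMap R (Alg N R)) 2).symm.trans (by rw [h, map_zero])

lemma zadd (g : Fin N → ZMod 2) : g + g = 0 := by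
  funext i
  exact CharTwo.add_self_eq_zero _

/-- The nilpotent generator `1 + g_s`. -/
noncomputable def ep (s : Fin N) : Alg N R := 1 + AddMonoidAlgebra.single (Pi.single s 1) 1

lemma ep_sq [CharP R 2] (s : Fin N) : (ep s : Alg N R) * ep s = 0 := by
  have h : (AddMonoidAlgebra.single (Pi.single s 1) 1 : Alg N R) *
      AddMonoidAlgebra.single (Pi.single s 1) 1 = 1 := by
    rw [AddMonoidAlgebra.single_mul_single, zadd, mul_one, AddMonoidAlgebra.one_def]
  have h2 : (2 : Alg N R) = 0 := two_eq_zero'
  unfold ep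
  linear_combination h + (1 + (AddMonoidAlgebra.single (Pi.single s 1) 1 : Alg N R)) * h2

lemma sum_sq {A : Type*} [CommRing A] (h2 : (2 : A) = 0) {ι : Type*} (S : Finset ι) (x : ι → A)
    (hx : ∀ i ∈ S, x i * x i = 0) : (∑ i ∈ S, x i) * (∑ i ∈ S, x i) = 0 := by
  classical
  induction S using Finset.induction_on with
  | empty => simp
  | insert a S ha ih =>
    rw [Finset.sum_insert ha]
    have h1 := ih (fun i hi => hx i (Finset.mem_insert_of_mem hi))
    have h3 := hx a (Finset.mem_insert_self a S)
    linear_combination h1 + h3 + (x a * ∑ i ∈ S, x i) * h2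

/-- A linear form in the nilpotent generators. -/
noncomputable def vec (c : Fin N → R) : Alg N R := ∑ s, c s • ep s

lemma vec_sq [CharP R 2] (c : Fin N → R) : (vec c : Alg N R) * vec c = 0 := by
  unfold vec
  refine sum_sq two_eq_zero' _ _ fun s _ => ?_
  rw [smul_mul_smul_comm, ep_sq, smul_zero]

/-- The product attached to a string. -/
noncomputable def prd {X : Type*} {n : ℕ} (φ : Fin n → X → R) (c : Fin n → Fin N → R)
    (x : Fin n → X) : Alg N R := ∏ k, (1 + φ k (x k) • vec (c k))

lemma prd_mul [CharP R 2] {X : Type*} {n : ℕ} (φ : Fin n → X → R) (c : Fin n → Fin N → R)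
    (x y : Fin n → X) :
    prd φ c x * prd φ c y = ∏ k, (1 + (φ k (x k) + φ k (y k)) • vec (c k)) := by
  unfold prd
  rw [← Finset.prod_mul_distrib]
  refine Finset.prod_congr rfl fun k _ => ?_
  have h := vec_sq (N := N) (c k)
  simp only [Algebra.smul_def, map_add]
  linear_combination (algebraMap R (Alg N R) (φ k (x k)) * algebraMap R (Alg N R) (φ k (y k))) * h

/-- The coefficient of the all-one vector. -/
noncomputable def lam (p : Alg N R) : R := p.coeff (fun _ => 1)

/-- Supported on vectors of weight at most `r`. -/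
def Wt (r : ℕ) (p : Alg N R) : Prop := ∀ g : Fin N → ZMod 2, r < hammingNorm g → p.coeff g = 0

lemma wt_add {r : ℕ} {p q : Alg N R} (hp : Wt r p) (hq : Wt r q) : Wt r (p + q) := by
  intro g hg
  rw [AddMonoidAlgebra.coeff_add, Finsupp.add_apply, hp g hg, hq g hg, add_zero]

lemma wt_mono {r s : ℕ} (hrs : r ≤ s) {p : Alg N R} (hp : Wt r p) : Wt s p :=
  fun g hg => hp g (lt_of_le_of_lt hrs hg)

lemma wt_smul {r : ℕ} (c : R) {p : Alg N R} (hp : Wt r p) : Wt r (c • p) := by
  intro g hg
  rw [AddMonoidAlgebra.coeff_smul_apply, hp g hg, smul_zero]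

lemma wt_one : Wt 0 (1 : Alg N R) := by
  classical
  intro g hg
  rw [AddMonoidAlgebra.one_def, AddMonoidAlgebra.coeff_single, Finsupp.single_apply]
  rw [if_neg]
  rintro rfl
  simp at hg

lemma wt_single (s : Fin N) : Wt 1 (AddMonoidAlgebra.single (Pi.single s 1) 1 : Alg N R) := by
  classical
  intro g hg
  rw [AddMonoidAlgebra.coeff_single, Finsupp.single_apply, if_neg]
  rintro rfl
  have : hammingNorm (Pi.single s 1 : Fin N → ZMod 2) ≤ 1 := by
    unfold hammingNorm
    rw [Finset.card_le_one]
    intro a ha b hb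
    simp only [Finset.mem_filter, Finset.mem_univ, true_and, ne_eq, Pi.single_apply,
      ite_eq_right_iff, Classical.not_imp] at ha hb
    rw [ha.1, hb.1]
  omega

lemma wt_ep (s : Fin N) : Wt 1 (ep s : Alg N R) :=
  wt_add (wt_mono (by norm_num) wt_one) (wt_single s)

lemma wt_sum {ι : Type*} (S : Finset ι) {r : ℕ} (x : ι → Alg N R) (hx : ∀ i ∈ S, Wt r (x i)) :
    Wt r (∑ i ∈ S, x i) := by
  classical
  induction S using Finset.induction_on with
  | empty => intro g _; simp
  | insert a S ha ih =>
    rw [Finset.sum_insert ha]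
    exact wt_add (hx a (Finset.mem_insert_self a S)) (ih fun i hi => hx i (Finset.mem_insert_of_mem hi))

lemma wt_vec (c : Fin N → R) : Wt 1 (vec c : Alg N R) :=
  wt_sum _ _ fun s _ => wt_smul _ (wt_ep s)

lemma hnorm_add_le (g h : Fin N → ZMod 2) :
    hammingNorm (g + h) ≤ hammingNorm g + hammingNorm h := by
  unfold hammingNorm
  refine le_trans (Finset.card_le_card ?_) (Finset.card_union_le _ _)
  intro i
  simp only [Finset.mem_filter, Finset.mem_univ, true_and, Finset.mem_union, Pi.add_apply]
  intro hne
  by_contra hcon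
  push Not at hcon
  rw [hcon.1, hcon.2] at hne
  exact hne (by simp)

lemma wt_mul {r s : ℕ} {p q : Alg N R} (hp : Wt r p) (hq : Wt s q) : Wt (r + s) (p * q) := by
  intro g hg
  rw [AddMonoidAlgebra.coeff_mul_apply_left, Finsupp.sum]
  refine Finset.sum_eq_zero fun h _ => ?_
  by_cases hh : r < hammingNorm h
  · rw [hp h hh, zero_mul]
  · have h1 : hammingNorm g ≤ hammingNorm h + hammingNorm (-h + g) := by
      have := hnorm_add_le h (-h + g)
      rwa [show h + (-h + g) = g by abel] at this
    rw [hq (-h + g) (by omega), mul_zero]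

lemma wt_prod {ι : Type*} (S : Finset ι) (z : ι → R) (c : ι → Fin N → R) :
    Wt S.card (∏ k ∈ S, (1 + z k • vec (c k)) : Alg N R) := by
  classical
  induction S using Finset.induction_on with
  | empty => simpa using wt_one
  | insert a S ha ih =>
    rw [Finset.prod_insert ha, Finset.card_insert_of_notMem ha, add_comm]
    exact wt_mul (wt_add (wt_mono (by norm_num) wt_one) (wt_smul _ (wt_vec _))) ih

lemma lam_eq_zero {r : ℕ} (hr : r < N) {p : Alg N R} (hp : Wt r p) : lam p = 0 := by
  apply hp
  have : hammingNorm (fun _ => 1 : Fin N → ZMod 2) = N := by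
    unfold hammingNorm
    simp
  omega

/-- If the strings are at distance less than `N` the pairing vanishes. -/
lemma pairing_zero [CharP R 2] {X : Type*} [DecidableEq X] {n : ℕ} (φ : Fin n → X → R)
    (c : Fin n → Fin N → R) (x y : Fin n → X) (h : hammingDist x y < N) :
    lam (prd φ c x * prd φ c y) = 0 := by
  rw [prd_mul]
  have hsub : ∏ k, (1 + (φ k (x k) + φ k (y k)) • vec (c k) : Alg N R) =
      ∏ k ∈ Finset.univ.filter (fun k => x k ≠ y k),
        (1 + (φ k (x k) + φ k (y k)) • vec (c k) : Alg N R) := by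
    symm
    apply Finset.prod_subset (Finset.filter_subset _ _)
    intro k _ hk
    have hk' : x k = y k := by
      by_contra hne
      exact hk (by simp [hne])
    rw [hk', CharTwo.add_self_eq_zero, zero_smul, add_zero]
  rw [hsub]
  exact lam_eq_zero (r := (Finset.univ.filter (fun k => x k ≠ y k)).card) h (wt_prod _ _ _)

/-- The pairing factors through a space of dimension `2 ^ N`. -/
lemma pairing_sum (p q : Alg N R) :
    lam (p * q) = ∑ g : Fin N → ZMod 2, p.coeff g * q.coeff (-g + fun _ => 1) := by
  unfold lam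
  rw [AddMonoidAlgebra.coeff_mul_apply_left, Finsupp.sum_fintype]
  intro g
  rw [zero_mul]

/-! ### Naturality and specialisation -/

lemma map_ep {S : Type*} [CommRing S] (f : R →+* S) (s : Fin N) :
    AddMonoidAlgebra.mapRingHom (Fin N → ZMod 2) f (ep s : Alg N R) = (ep s : Alg N S) := by
  unfold ep
  rw [map_add, map_one]
  congr 1
  simp

lemma map_vec {S : Type*} [CommRing S] (f : R →+* S) (c : Fin N → R) :
    AddMonoidAlgebra.mapRingHom (Fin N → ZMod 2) f (vec c : Alg N R) =
      (vec (fun s => f (c s)) : Alg N S) := by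
  unfold vec
  rw [map_sum]
  refine Finset.sum_congr rfl fun s _ => ?_
  rw [Algebra.smul_def, Algebra.smul_def, map_mul, map_ep]
  congr 1
  simp

lemma map_prd {S : Type*} [CommRing S] (f : R →+* S) {X : Type*} {n : ℕ} (φ : Fin n → X → R)
    (c : Fin n → Fin N → R) (x : Fin n → X) :
    AddMonoidAlgebra.mapRingHom (Fin N → ZMod 2) f (prd φ c x) =
      prd (fun k a => f (φ k a)) (fun k s => f (c k s)) x := by
  unfold prd
  rw [map_prod]
  refine Finset.prod_congr rfl fun k _ => ?_
  rw [map_add, map_one, Algebra.smul_def, Algebra.smul_def, map_mul, map_vec]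
  congr 2
  simp

lemma map_lam {S : Type*} [CommRing S] (f : R →+* S) (p : Alg N R) :
    lam (AddMonoidAlgebra.mapRingHom (Fin N → ZMod 2) f p) = f (lam p) := by
  unfold lam
  simp

end algebra

section main

variable {N n : ℕ} {X : Type*} [DecidableEq X]

lemma one_add_ep (s : Fin N) :
    (1 + ep s : Alg N (ZMod 2)) = AddMonoidAlgebra.single (Pi.single s 1) 1 := by
  have h2 : (2 : Alg N (ZMod 2)) = 0 := two_eq_zero'
  unfold ep
  linear_combination h2

lemma prod_one_add_ep :
    ∏ s : Fin N, (1 + ep s : Alg N (ZMod 2)) = AddMonoidAlgebra.single (fun _ => 1) 1 := by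
  simp_rw [one_add_ep]
  rw [AddMonoidAlgebra.prod_single, Finset.prod_const_one]
  congr 1
  funext i
  simp [Finset.sum_apply, Pi.single_apply]

/-- A specialisation at which the pairing does not vanish. -/
lemma special (x y : Fin n → X) (h : N ≤ hammingDist x y) :
    ∃ (φ : Fin n → X → ZMod 2) (c : Fin n → Fin N → ZMod 2),
      lam (prd φ c x * prd φ c y) = 1 := by
  classical
  set D := Finset.univ.filter (fun k => x k ≠ y k) with hD
  have hD' : N ≤ D.card := h
  obtain ⟨D', hD'sub, hD'card⟩ := Finset.exists_subset_card_eq hD'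
  let e := D'.orderEmbOfFin hD'card
  have hmem : ∀ s, x (e s) ≠ y (e s) := by
    intro s
    have := hD'sub (Finset.orderEmbOfFin_mem D' hD'card s)
    rw [hD, Finset.mem_filter] at this
    exact this.2
  refine ⟨fun k a => if (∃ s, e s = k) ∧ a = x k then 1 else 0,
    fun k s => if e s = k then 1 else 0, ?_⟩
  have hx : prd (N := N) (fun k a => if (∃ s, e s = k) ∧ a = x k then (1 : ZMod 2) else 0)
      (fun k s => if e s = k then (1 : ZMod 2) else 0) x = AddMonoidAlgebra.single (fun _ => 1) 1 := by
    rw [← prod_one_add_ep]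
    unfold prd
    symm
    apply Fintype.prod_of_injective e e.injective
    · intro k hk
      have hk' : ¬ ∃ s, e s = k := fun h => hk h
      beta_reduce
      rw [if_neg (fun h => hk' h.1), zero_smul, add_zero]
    · intro s
      beta_reduce
      rw [if_pos ⟨⟨s, rfl⟩, rfl⟩, one_smul]
      congr 1
      unfold vec
      rw [Finset.sum_eq_single s]
      · beta_reduce
        rw [if_pos rfl, one_smul]
      · intro s' _ hs'
        beta_reduce
        rw [if_neg (fun h => hs' (e.injective h)), zero_smul]
      · intro h; exact absurd (Finset.mem_univ s) h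
  have hy : prd (N := N) (fun k a => if (∃ s, e s = k) ∧ a = x k then (1 : ZMod 2) else 0)
      (fun k s => if e s = k then (1 : ZMod 2) else 0) y = 1 := by
    unfold prd
    apply Finset.prod_eq_one
    intro k _
    beta_reduce
    rw [if_neg, zero_smul, add_zero]
    rintro ⟨⟨s, rfl⟩, h2⟩
    exact hmem s h2.symm
  rw [hx, hy, mul_one]
  simp [lam]

/-- The generic pairing. -/
noncomputable def gen (N n : ℕ) (X : Type*) (x y : Fin n → X) :
    MvPolynomial ((Fin n × X) ⊕ (Fin n × Fin N)) (ZMod 2) :=
  lam (prd (N := N) (fun k a => MvPolynomial.X (Sum.inl (k, a)))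
      (fun k s => MvPolynomial.X (Sum.inr (k, s))) x *
    prd (fun k a => MvPolynomial.X (Sum.inl (k, a))) (fun k s => MvPolynomial.X (Sum.inr (k, s))) y)

lemma gen_zero (x y : Fin n → X) (h : hammingDist x y < N) : gen N n X x y = 0 :=
  pairing_zero _ _ x y h

lemma gen_ne_zero (x y : Fin n → X) (h : N ≤ hammingDist x y) : gen N n X x y ≠ 0 := by
  obtain ⟨φ, c, hφ⟩ := special (N := N) x y h
  intro h0
  have h1 := congrArg (MvPolynomial.eval (Sum.elim (fun q : Fin n × X => φ q.1 q.2)
    (fun q : Fin n × Fin N => c q.1 q.2))) h0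
  unfold gen at h1
  rw [← map_lam, map_mul, map_prd, map_prd] at h1
  simp only [MvPolynomial.eval_X, Sum.elim_inl, Sum.elim_inr, map_zero] at h1
  rw [h1] at hφ
  exact absurd hφ (by decide)

/-- The upper bound. -/
lemma upper (t m : ℕ) (a b : Fin m → Fin n → X)
    (h1 : ∀ i, t + 1 ≤ hammingDist (a i) (b i))
    (h2 : ∀ i j, i < j → hammingDist (a i) (b j) ≤ t) : m ≤ 2 ^ (t + 1) := by
  set R := MvPolynomial ((Fin n × X) ⊕ (Fin n × Fin (t + 1))) (ZMod 2) with hR
  let K := FractionRing R
  let M : Matrix (Fin m) (Fin m) R := fun i j => gen (t + 1) n X (a i) (b j)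
  let Φ : Fin n → X → R := fun k x => MvPolynomial.X (Sum.inl (k, x))
  let C : Fin n → Fin (t + 1) → R := fun k s => MvPolynomial.X (Sum.inr (k, s))
  let A : Matrix (Fin m) (Fin (t + 1) → ZMod 2) R := fun i g => (prd Φ C (a i)).coeff g
  let B : Matrix (Fin (t + 1) → ZMod 2) (Fin m) R := fun g j =>
    (prd Φ C (b j)).coeff (-g + fun _ => 1)
  have hM : M = A * B := by
    ext i j
    exact congrArg _ (pairing_sum (prd Φ C (a i)) (prd Φ C (b j)))
  have hinj : Function.Injective (algebraMap R K) := IsFractionRing.injective R K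
  have hM' : (M.map (algebraMap R K)) = (A.map (algebraMap R K)) * (B.map (algebraMap R K)) := by
    rw [hM, Matrix.map_mul]
  have hdet : (M.map (algebraMap R K)).det ≠ 0 := by
    rw [Matrix.det_of_isLowerTriangular]
    · rw [Finset.prod_ne_zero_iff]
      intro i _ h0
      rw [Matrix.map_apply, ← map_zero (algebraMap R K)] at h0
      exact gen_ne_zero (N := t + 1) (a i) (b i) (h1 i) (hinj h0)
    · intro i j hij
      have hij' : i < j := hij
      rw [Matrix.map_apply]
      have : M i j = 0 := gen_zero (N := t + 1) (a i) (b j) (Nat.lt_succ_of_le (h2 i j hij'))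
      rw [this, map_zero]
  have hunit : IsUnit (M.map (algebraMap R K)) := by
    rw [Matrix.isUnit_iff_isUnit_det]
    exact isUnit_iff_ne_zero.mpr hdet
  have hr1 : (M.map (algebraMap R K)).rank = m := by
    rw [Matrix.rank_of_isUnit _ hunit, Fintype.card_fin]
  have hr2 : (M.map (algebraMap R K)).rank ≤ 2 ^ (t + 1) := by
    rw [hM']
    refine (Matrix.rank_mul_le_left _ _).trans ?_
    refine (Matrix.rank_le_card_width _).trans ?_
    simp
  omega

/-- The lower bound. -/
lemma lower [Nontrivial X] (t : ℕ) : ∃ n : ℕ, t + 1 ≤ n ∧ ∃ a b : Fin (2 ^ (t + 1)) → Fin n → X,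
    (∀ i, t + 1 ≤ hammingDist (a i) (b i)) ∧
      ∀ i j, i < j → hammingDist (a i) (b j) ≤ t := by
  obtain ⟨x0, x1, hne⟩ := exists_pair_ne X
  let e : Fin (2 ^ (t + 1)) ≃ (Fin (t + 1) → Bool) := Fintype.equivOfCardEq (by simp)
  refine ⟨t + 1, le_rfl, fun i k => if e i k then x0 else x1, fun i k => if e i k then x1 else x0,
    ?_, ?_⟩
  · intro i
    unfold hammingDist
    have : (Finset.univ.filter (fun k : Fin (t + 1) =>
        (if e i k then x0 else x1) ≠ (if e i k then x1 else x0))) = Finset.univ := by
      apply Finset.filter_true_of_mem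
      intro k _
      cases e i k <;> simp [hne, hne.symm]
    rw [this]; simp
  · intro i j hij
    by_contra hcon
    push Not at hcon
    unfold hammingDist at hcon
    have hall : (Finset.univ.filter (fun k : Fin (t + 1) =>
        (if e i k then x0 else x1) ≠ (if e j k then x1 else x0))) = Finset.univ := by
      apply Finset.eq_univ_of_card
      refine le_antisymm ((Finset.card_le_univ _)) ?_
      rw [Fintype.card_fin]; exact hcon
    have heq : e i = e j := by
      funext k
      have hk : k ∈ (Finset.univ.filter (fun k : Fin (t + 1) =>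
        (if e i k then x0 else x1) ≠ (if e j k then x1 else x0))) := by
        rw [hall]; exact Finset.mem_univ k
      rw [Finset.mem_filter] at hk
      have hk2 := hk.2
      cases h1 : e i k <;> cases h2 : e j k <;> simp [h1, h2] at hk2 ⊢
    exact absurd (e.injective heq) hij.ne

end main

/-- **Theorem.** For every `t ≥ 0` and every set `X` with at least two elements, the largest length
of a skew `t`-family over `X` is exactly `2 ^ (t + 1)`. -/
theorem result {X : Type*} [DecidableEq X] [Nontrivial X] (t : ℕ) :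
    IsGreatest {m : ℕ | ∃ n : ℕ, t + 1 ≤ n ∧ ∃ a b : Fin m → Fin n → X,
      (∀ i, t + 1 ≤ hammingDist (a i) (b i)) ∧
        ∀ i j, i < j → hammingDist (a i) (b j) ≤ t} (2 ^ (t + 1)) := by
  constructor
  · exact lower t
  · rintro m ⟨n, -, a, b, h1, h2⟩
    exact upper t m a b h1 h2

end Pool.Agent.Results.MP_41e757_co.SkewHamming
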